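import Pool.Agent.R337.Ent.Main

/-!
# The Addition Theorem for algebraic entropy of endomorphisms of discrete groups

Discrete groups `G` with an endomorphism `φ` such that every finite set is contained in a finite
subgroup `U` all of whose trajectories `U φ(U) ⋯ φ^(n-1)(U)` are subgroups.
-/

open Set Filter Topology
open scoped Pointwise

namespace Pool.Agent.Helper21K9.AT

open R337.Ent

/-- `H_alg(φ, F) = limsup log |T_n(φ, F)| / n` -/
noncomputable def Hent {G : Type*} [Group G] (φ : G →* G) (F : Set G) : EReal :=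
  limsup (fun n : ℕ => ((Real.log (Nat.card (traj φ F n)) / n : ℝ) : EReal)) atTop

/-- `h_alg(φ)`, the supremum over the finite sets containing `1` -/
noncomputable def ent {G : Type*} [Group G] (φ : G →* G) : EReal :=
  ⨆ F : {F : Set G // F.Finite ∧ (1 : G) ∈ F}, Hent φ F.1

variable {G : Type*} [Group G]

theorem finite_T {φ : G →* G} {U : Subgroup G} (hg : Good φ U) (hU : (U : Set G).Finite) (n : ℕ) :
    (T φ U n : Set G).Finite := by
  induction n with
  | zero => rw [T_zero, Subgroup.coe_bot]; exact Set.finite_singleton _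
  | succ n ih =>
    rw [hg n, Subgroup.coe_map]
    exact (ih.image _).mul hU

theorem relIndex_ne_zero_of_finite (A : Subgroup G) {B : Subgroup G} (hB : (B : Set G).Finite) :
    A.relIndex B ≠ 0 := by
  have : Finite B := hB
  exact Subgroup.FiniteIndex.index_ne_zero

theorem card_T {φ : G →* G} {U : Subgroup G} (n : ℕ) :
    Nat.card (T φ U (n + 1)) = Nat.card U * U.relIndex (T φ U (n + 1)) := by
  rw [← Subgroup.relIndex_bot_left, ← Subgroup.relIndex_bot_left,
    Subgroup.relIndex_mul_relIndex ⊥ U _ bot_le (le_T φ U n)]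

/-- a subset of the group -/
theorem Hent_eq {φ : G →* G} {U : Subgroup G}
    (hg : Good φ U) (hU : (U : Set G).Finite) {L : ℝ}
    (hL : Tendsto (fun n : ℕ => Real.log (U.relIndex (T φ U n)) / n) atTop (𝓝 L)) :
    Hent φ (U : Set G) = L := by
  have : Finite U := hU
  have hpos : 0 < (Nat.card U : ℝ) := by exact_mod_cast Nat.card_pos
  unfold Hent
  apply Tendsto.limsup_eq
  refine (continuous_coe_real_ereal.tendsto L).comp ?_
  have hev : (fun n : ℕ => Real.log (Nat.card (traj φ (U : Set G) n)) / n) =ᶠ[atTop]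
      fun n : ℕ => Real.log (U.relIndex (T φ U n)) / n +
        Real.log (Nat.card U) * (n : ℝ)⁻¹ := by
    filter_upwards [eventually_ge_atTop 1] with n hn
    obtain ⟨k, rfl⟩ := Nat.exists_eq_add_of_le' hn
    rw [traj_eq_T hg]
    have h1 : Nat.card ((T φ U (k + 1) : Subgroup G) : Set G) = Nat.card (T φ U (k + 1)) := rfl
    rw [h1, card_T, Nat.cast_mul, Real.log_mul hpos.ne']
    · ring
    · exact_mod_cast relIndex_ne_zero_of_finite _ (finite_T hg hU _)
  rw [tendsto_congr' hev]
  simpa using hL.add ((tendsto_inv_atTop_nhds_zero_nat (𝕜 := ℝ)).const_mul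
    (Real.log (Nat.card U)))

/-- comparison of trajectories with a sequence of finite sets -/
theorem Hent_le {φ : G →* G} {F : Set G} (hF : (1 : G) ∈ F) {S : ℕ → Set G} {L : ℝ}
    (hS : ∀ n, (S (n + 1)).Finite) (hsub : ∀ n, traj φ F (n + 1) ⊆ S (n + 1))
    (hL : Tendsto (fun n : ℕ => Real.log (Nat.card (S n)) / n) atTop (𝓝 L)) :
    Hent φ F ≤ L := by
  have h1 : limsup (fun n : ℕ => ((Real.log (Nat.card (S n)) / n : ℝ) : EReal)) atTop = L := by
    apply Tendsto.limsup_eq
    exact (continuous_coe_real_ereal.tendsto L).comp hL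
  rw [← h1]
  refine limsup_le_limsup ?_
  filter_upwards [eventually_ge_atTop 1] with n hn
  obtain ⟨k, rfl⟩ := Nat.exists_eq_add_of_le' hn
  rw [EReal.coe_le_coe_iff]
  have hfin : (traj φ F (k + 1)).Finite := (hS k).subset (hsub k)
  have h2 : Nat.card (traj φ F (k + 1)) ≤ Nat.card (S (k + 1)) :=
    Nat.card_mono (hS k) (hsub k)
  have h3 : 0 < Nat.card (traj φ F (k + 1)) := by
    have : Finite (traj φ F (k + 1)) := hfin
    have : Nonempty (traj φ F (k + 1)) := ⟨⟨1, one_mem_traj φ hF _⟩⟩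
    exact Nat.card_pos
  refine div_le_div_of_nonneg_right (Real.log_le_log ?_ ?_) (by positivity)
  · exact_mod_cast h3
  · exact_mod_cast h2

section Quo

variable (φ : G →* G) (H : Subgroup G) [H.Normal] (hH : H ≤ H.comap φ)

/-- the trajectory of the trace on `H`, with the product decomposition -/
theorem T_res_good {U : Subgroup G} (hg : Good φ U)
    (hf : ∀ n, (T φ U (n + 1)).relIndex (T φ U (n + 2)) ≠ 0) :
    ∃ m : ℕ, (∀ k : ℕ, T (resHom φ H hH) ((T φ U (m + 2)).subgroupOf H) (k + 1) =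
      (T φ U (m + 2 + k)).subgroupOf H) ∧
      Good (resHom φ H hH) ((T φ U (m + 2)).subgroupOf H) := by
  have hfQ : ∀ n, (T (quoHom φ H hH) (U.map (QuotientGroup.mk' H)) (n + 1)).relIndex
      (T (quoHom φ H hH) (U.map (QuotientGroup.mk' H)) (n + 2)) ≠ 0 := by
    intro n
    rw [T_quo, T_quo]
    exact relIndex_quo_ne_zero H (hf n)
  obtain ⟨m, -, hm⟩ := stab (good_quo φ H hH hg) hfQ
  -- descending
  have hdesc : ∀ j : ℕ, ∀ t ∈ T φ U (m + 1 + j), quoHom φ H hH (QuotientGroup.mk' H t) ∈
      U.map (QuotientGroup.mk' H) → QuotientGroup.mk' H t ∈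
        (T φ U (m + 1)).map (QuotientGroup.mk' H) := by
    intro j t ht hφt
    have key : ∀ i, i ≤ j → QuotientGroup.mk' H t ∈
        (T φ U (m + 1 + (j - i))).map (QuotientGroup.mk' H) := by
      intro i
      induction i with
      | zero => intro _; exact ⟨t, ht, rfl⟩
      | succ i ih =>
        intro hi
        have h1 := ih (by omega)
        have e : m + 1 + (j - i) = (m + (j - (i + 1))) + 2 := by omega
        rw [e] at h1
        have h2 := hm (m + (j - (i + 1))) (by omega) (QuotientGroup.mk' H t)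
          (by rw [T_quo]; exact h1)
          (by
            have : m + (j - (i + 1)) + 2 = (m + (j - (i + 1)) + 1) + 1 := rfl
            rw [this]
            exact le_T _ _ _ hφt)
        rw [T_quo] at h2
        have e2 : m + 1 + (j - (i + 1)) = m + (j - (i + 1)) + 1 := by omega
        rw [e2]
        exact h2
    have := key j le_rfl
    simpa using this
  -- the decomposition
  have dec : ∀ k : ℕ, ∀ y : H, (y : G) ∈ T φ U (m + 2 + k + 1) →
      ∃ x : H, (x : G) ∈ T φ U (m + 2 + k) ∧ ∃ v : H, (v : G) ∈ T φ U (m + 2) ∧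
        y = resHom φ H hH x * v := by
    intro k y hy
    have hy' : (y : G) ∈ ((T φ U (m + 2 + k + 1) : Subgroup G) : Set G) := hy
    rw [hg (m + 2 + k)] at hy'
    obtain ⟨s, ⟨t, ht, rfl⟩, u, hu, he⟩ := hy'
    have he' : φ t * u = y := he
    have hq : QuotientGroup.mk' H t ∈ (T φ U (m + 1)).map (QuotientGroup.mk' H) := by
      refine hdesc (k + 1) t (by
        have : m + 1 + (k + 1) = m + 2 + k := by ring
        rw [this]; exact ht) ?_
      have h1 : (QuotientGroup.mk' H) (φ t) * QuotientGroup.mk' H u = 1 := by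
        rw [← map_mul, he']
        exact (QuotientGroup.eq_one_iff _).2 y.2
      have h2 : quoHom φ H hH (QuotientGroup.mk' H t) = QuotientGroup.mk' H (u⁻¹) := by
        rw [map_inv]
        exact eq_inv_of_mul_eq_one_left h1
      rw [h2]
      exact ⟨u⁻¹, U.inv_mem hu, rfl⟩
    obtain ⟨t0, ht0, hte⟩ := hq
    have hh : t * t0⁻¹ ∈ H := by
      have h3 : QuotientGroup.mk' H (t * t0⁻¹) = 1 := by
        rw [map_mul, map_inv, hte, mul_inv_cancel]
      exact (QuotientGroup.eq_one_iff _).1 h3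
    have hT : t * t0⁻¹ ∈ T φ U (m + 2 + k) :=
      mul_mem ht (inv_mem (T_mono φ U (by omega) ht0))
    have hsplit : (y : G) = φ (t * t0⁻¹) * (φ t0 * u) := by
      rw [← he', map_mul, map_inv]; group
    have hφh : φ (t * t0⁻¹) ∈ H := hH hh
    have hv : φ t0 * u ∈ H := by
      have : φ t0 * u = (φ (t * t0⁻¹))⁻¹ * y := by rw [hsplit]; group
      rw [this]
      exact H.mul_mem (H.inv_mem hφh) y.2
    have hvT : φ t0 * u ∈ T φ U (m + 2) :=
      mul_mem (map_T_le φ U (m + 1) ⟨t0, ht0, rfl⟩) (le_T φ U (m + 1) hu)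
    exact ⟨⟨t * t0⁻¹, hh⟩, hT, ⟨φ t0 * u, hv⟩, hvT, Subtype.ext hsplit⟩
  have hT : ∀ k : ℕ, T (resHom φ H hH) ((T φ U (m + 2)).subgroupOf H) (k + 1) =
      (T φ U (m + 2 + k)).subgroupOf H := by
    intro k
    induction k with
    | zero => rw [zero_add, T_one, add_zero]
    | succ k ih =>
      rw [T_succ, ih]
      apply le_antisymm
      · refine sup_le ?_ ?_
        · rw [Subgroup.map_le_iff_le_comap]
          intro x hx
          rw [Subgroup.mem_subgroupOf] at hx
          rw [Subgroup.mem_comap, Subgroup.mem_subgroupOf]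
          exact map_T_le φ U (m + 2 + k) ⟨x, hx, rfl⟩
        · exact Subgroup.comap_mono (T_mono φ U (by omega))
      · intro y hy
        rw [Subgroup.mem_subgroupOf] at hy
        obtain ⟨x, hx, v, hv, rfl⟩ := dec k y hy
        exact Subgroup.mul_mem_sup ⟨x, hx, rfl⟩ hv
  refine ⟨m, hT, ?_⟩
  intro n
  rcases n with _ | k
  · rw [T_zero, zero_add, T_one, Subgroup.map_bot, Subgroup.coe_bot]
    simp
  · rw [hT (k + 1), hT k]
    apply Set.Subset.antisymm
    · intro y hy
      have hy' : (y : G) ∈ T φ U (m + 2 + k + 1) := hy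
      obtain ⟨x, hx, v, hv, rfl⟩ := dec k y hy'
      exact ⟨_, ⟨x, hx, rfl⟩, v, hv, rfl⟩
    · rintro _ ⟨_, ⟨x, hx, rfl⟩, v, hv, rfl⟩
      have hx' : (x : G) ∈ T φ U (m + 2 + k) := hx
      have hv' : (v : G) ∈ T φ U (m + 2) := hv
      have h1 : φ (x : G) ∈ T φ U (m + 2 + k + 1) := map_T_le φ U (m + 2 + k) ⟨x, hx', rfl⟩
      have h2 : (v : G) ∈ T φ U (m + 2 + k + 1) := T_mono φ U (by omega) hv'
      exact mul_mem h1 h2

/-- **Addition Theorem** for endomorphisms of discrete groups such that every finite set is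
contained in a finite subgroup all of whose trajectories are subgroups -/
theorem addition (hcov : ∀ F : Set G, F.Finite → ∃ U : Subgroup G, (U : Set G).Finite ∧ F ⊆ U ∧
    Good φ U) : ent φ = ent (quoHom φ H hH) + ent (resHom φ H hH) := by
  set π : G →* G ⧸ H := QuotientGroup.mk' H with hπ
  have main : ∀ U : Subgroup G, (U : Set G).Finite → Good φ U →
      ∃ (LG LQ LH : ℝ) (V : Subgroup H), LG = LQ + LH ∧ Hent φ (U : Set G) = LG ∧
        Hent (quoHom φ H hH) ((U.map π : Subgroup (G ⧸ H)) : Set (G ⧸ H)) = LQ ∧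
        (V : Set H).Finite ∧ Hent (resHom φ H hH) (V : Set H) = LH ∧
        ∀ F : Set H, (1 : H) ∈ F → F ⊆ ((U.subgroupOf H : Subgroup H) : Set H) →
          Hent (resHom φ H hH) F ≤ LH := by
    intro U hU hg
    have hT := finite_T hg hU
    have hf : ∀ n, (T φ U (n + 1)).relIndex (T φ U (n + 2)) ≠ 0 := fun n =>
      relIndex_ne_zero_of_finite _ (hT _)
    obtain ⟨LG, hLG⟩ := exists_rate hg hf
    have hgQ := good_quo φ H hH hg
    have hUQ : ((U.map π : Subgroup (G ⧸ H)) : Set (G ⧸ H)).Finite := by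
      rw [Subgroup.coe_map]; exact hU.image _
    have hfQ : ∀ n, (T (quoHom φ H hH) (U.map π) (n + 1)).relIndex
        (T (quoHom φ H hH) (U.map π) (n + 2)) ≠ 0 := fun n =>
      relIndex_ne_zero_of_finite _ (finite_T hgQ hUQ _)
    obtain ⟨LQ, hLQ⟩ := exists_rate hgQ hfQ
    obtain ⟨m, hm, hgV⟩ := T_res_good φ H hH hg hf
    set V : Subgroup H := (T φ U (m + 2)).subgroupOf H with hV
    have hsub : ∀ {A : Subgroup G}, (A : Set G).Finite →
        ((A.subgroupOf H : Subgroup H) : Set H).Finite := by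
      intro A hA
      have h := Set.Finite.preimage (f := (Subtype.val : H → G))
        (s := (A : Set G)) Subtype.val_injective.injOn hA
      exact h
    have hVf : (V : Set H).Finite := hsub (hT _)
    have hfV : ∀ n, (T (resHom φ H hH) V (n + 1)).relIndex (T (resHom φ H hH) V (n + 2)) ≠ 0 :=
      fun n => relIndex_ne_zero_of_finite _ (finite_T hgV hVf _)
    obtain ⟨LH, hLH⟩ := exists_rate hgV hfV
    have hfr : ∀ n, (U.subgroupOf H).relIndex ((T φ U (n + 1)).subgroupOf H) ≠ 0 := fun n =>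
      relIndex_ne_zero_of_finite _ (hsub (hT _))
    have hres := rate_res φ H hH hm hfr hLH
    have hsum : LG = LQ + LH := by
      refine tendsto_nhds_unique hLG ?_
      refine (hLQ.add hres).congr' ?_
      filter_upwards [eventually_ge_atTop 1] with n hn
      obtain ⟨k, rfl⟩ := Nat.exists_eq_add_of_le' hn
      rw [relIndex_split H (le_T φ U k), Nat.cast_mul, Real.log_mul, T_quo]
      · ring
      · have h1 : (U.map (QuotientGroup.mk' H)).relIndex
            ((T φ U (k + 1)).map (QuotientGroup.mk' H)) ≠ 0 :=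
          relIndex_quo_ne_zero H (relIndex_ne_zero_of_finite _ (hT _))
        exact_mod_cast h1
      · exact_mod_cast hfr k
    refine ⟨LG, LQ, LH, V, hsum, Hent_eq hg hU hLG, Hent_eq hgQ hUQ hLQ,
      hVf, Hent_eq hgV hVf hLH, ?_⟩
    intro F hF1 hFU
    have hsubT : ∀ n, traj (resHom φ H hH) F n ⊆ ((T φ U n).subgroupOf H : Subgroup H) := by
      intro n
      induction n with
      | zero => rw [traj_zero]; rintro x rfl; exact Subgroup.one_mem _
      | succ n ih =>
        rw [traj_succ]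
        rintro _ ⟨x, hx, _, ⟨y, hy, rfl⟩, rfl⟩
        have h1 : (x : G) ∈ T φ U (n + 1) := le_T φ U n (hFU hx)
        have h2 : φ (y : G) ∈ T φ U (n + 1) := map_T_le φ U n ⟨y, ih hy, rfl⟩
        exact mul_mem h1 h2
    refine Hent_le (S := fun n => ((T φ U n).subgroupOf H : Subgroup H)) hF1
      (fun n => hsub (hT _)) (fun n => hsubT (n + 1)) ?_
    have hUH := hsub hU
    have : Finite (U.subgroupOf H) := hUH
    have hpos : 0 < (Nat.card (U.subgroupOf H) : ℝ) := by exact_mod_cast Nat.card_pos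
    have hev : (fun n : ℕ => Real.log (Nat.card (((T φ U n).subgroupOf H : Subgroup H) : Set H)) / n)
        =ᶠ[atTop] fun n : ℕ => Real.log ((U.subgroupOf H).relIndex ((T φ U n).subgroupOf H)) / n +
          Real.log (Nat.card (U.subgroupOf H)) * (n : ℝ)⁻¹ := by
      filter_upwards [eventually_ge_atTop 1] with n hn
      obtain ⟨k, rfl⟩ := Nat.exists_eq_add_of_le' hn
      have h1 : Nat.card (((T φ U (k + 1)).subgroupOf H : Subgroup H) : Set H) =
          Nat.card (U.subgroupOf H) * (U.subgroupOf H).relIndex ((T φ U (k + 1)).subgroupOf H) := by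
        have h2 := Subgroup.relIndex_mul_relIndex ⊥ (U.subgroupOf H)
          ((T φ U (k + 1)).subgroupOf H) bot_le (Subgroup.comap_mono (le_T φ U k))
        rw [Subgroup.relIndex_bot_left, Subgroup.relIndex_bot_left] at h2
        exact h2.symm
      rw [h1, Nat.cast_mul, Real.log_mul hpos.ne']
      · ring
      · exact_mod_cast hfr k
    rw [tendsto_congr' hev]
    simpa using hres.add ((tendsto_inv_atTop_nhds_zero_nat (𝕜 := ℝ)).const_mul
      (Real.log (Nat.card (U.subgroupOf H))))
  have mono : ∀ {K : Type _} [Group K] (ψ : K →* K) {F : Set K} {U : Subgroup K},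
      (1 : K) ∈ F → F ⊆ (U : Set K) → (U : Set K).Finite → Good ψ U →
      Hent ψ F ≤ Hent ψ (U : Set K) := by
    intro K _ ψ F U h1 hFU hU hg
    have hf : ∀ n, (T ψ U (n + 1)).relIndex (T ψ U (n + 2)) ≠ 0 := fun n =>
      relIndex_ne_zero_of_finite _ (finite_T hg hU _)
    refine limsup_le_limsup ?_
    filter_upwards [eventually_ge_atTop 1] with n hn
    rw [EReal.coe_le_coe_iff]
    have hfin : (traj ψ (U : Set K) n).Finite := by rw [traj_eq_T hg]; exact finite_T hg hU _
    have hsub := traj_mono ψ hFU n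
    have h2 : Nat.card (traj ψ F n) ≤ Nat.card (traj ψ (U : Set K) n) :=
      Nat.card_mono hfin hsub
    have h3 : 0 < Nat.card (traj ψ F n) := by
      have : Finite (traj ψ F n) := hfin.subset hsub
      have : Nonempty (traj ψ F n) := ⟨⟨1, one_mem_traj ψ h1 _⟩⟩
      exact Nat.card_pos
    refine div_le_div_of_nonneg_right (Real.log_le_log ?_ ?_) (by positivity)
    · exact_mod_cast h3
    · exact_mod_cast h2
  apply le_antisymm
  · refine iSup_le fun C => ?_
    obtain ⟨U, hU, hCU, hg⟩ := hcov C.1 C.2.1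
    obtain ⟨LG, LQ, LH, V, hsum, h1, h2, hVf, h3, -⟩ := main U hU hg
    have h4 : Hent φ C.1 ≤ LG := by
      rw [← h1]
      exact mono φ C.2.2 hCU hU hg
    refine h4.trans ?_
    rw [hsum, EReal.coe_add, ← h2, ← h3]
    refine add_le_add ?_ ?_
    · refine le_iSup (fun W : {U : Set (G ⧸ H) // U.Finite ∧ (1 : G ⧸ H) ∈ U} =>
        Hent (quoHom φ H hH) W.1) ⟨((U.map π : Subgroup (G ⧸ H)) : Set (G ⧸ H)), ?_, ?_⟩
      · rw [Subgroup.coe_map]; exact hU.image _
      · exact Subgroup.one_mem _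
    · exact le_iSup (fun W : {U : Set H // U.Finite ∧ (1 : H) ∈ U} =>
        Hent (resHom φ H hH) W.1) ⟨(V : Set H), hVf, V.one_mem⟩
  · refine EReal.add_le_of_forall_lt fun a ha b hb => ?_
    obtain ⟨C1, hC1⟩ := lt_iSup_iff.1 ha
    obtain ⟨C2, hC2⟩ := lt_iSup_iff.1 hb
    -- a finite set of representatives
    obtain ⟨D1, hD1, hD1'⟩ : ∃ D : Set G, D.Finite ∧ C1.1 ⊆ π '' D := by
      refine ⟨Function.surjInv (QuotientGroup.mk'_surjective H) '' C1.1, C1.2.1.image _, ?_⟩
      intro x hx
      exact ⟨_, ⟨x, hx, rfl⟩, Function.surjInv_eq (QuotientGroup.mk'_surjective H) x⟩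
    obtain ⟨N, hN, hDN, hg⟩ := hcov (D1 ∪ Subtype.val '' C2.1) (hD1.union (C2.2.1.image _))
    obtain ⟨LG, LQ, LH, V, hsum, h1, h2, hVf, h3, h4⟩ := main N hN hg
    have h5 : Hent (quoHom φ H hH) C1.1 ≤ LQ := by
      rw [← h2]
      refine mono _ C1.2.2 (hD1'.trans ?_) ?_ (good_quo φ H hH hg)
      · rw [Subgroup.coe_map]
        exact Set.image_mono (Set.subset_union_left.trans hDN)
      · rw [Subgroup.coe_map]; exact hN.image _
    have h6 : Hent (resHom φ H hH) C2.1 ≤ LH := by
      refine h4 _ C2.2.2 ?_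
      intro x hx
      exact hDN (Or.inr ⟨x, hx, rfl⟩)
    calc a + b ≤ LQ + LH := add_le_add (hC1.le.trans h5) (hC2.le.trans h6)
      _ = LG := by rw [hsum, EReal.coe_add]
      _ = Hent φ (N : Set G) := h1.symm
      _ ≤ ent φ := le_iSup (fun W : {U : Set G // U.Finite ∧ (1 : G) ∈ U} =>
          Hent φ W.1) ⟨(N : Set G), hN, N.one_mem⟩

end Quo

end Pool.Agent.Helper21K9.AT
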